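import Pool.Agent.Helper96.LB3.Stmts

/-!
# Row FIB of the project LB3: the fibres are segments
-/

namespace Pool.Agent.Helper18.LB3

open Pool.Agent.Helper96.LB3

lemma fib_key {β q h t z : ℝ} (hq : q ≠ 0) :
    |β + q * z| ≤ h - t * |q| ↔
      (-β / q - h / |q| ≤ z - t ∧ z + t ≤ -β / q + h / |q|) := by
  have hq' : 0 < |q| := abs_pos.2 hq
  have h1 : |β + q * z| = |q| * |β / q + z| := by
    rw [← abs_mul]
    congr 1
    field_simp
  have h2 : h - t * |q| = |q| * (h / |q| - t) := by
    field_simp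
  have h3 : -β / q = -(β / q) := by ring
  rw [h1, h2, mul_le_mul_iff_of_pos_left hq', abs_le, h3]
  constructor
  · rintro ⟨h4, h5⟩
    constructor <;> linarith
  · rintro ⟨h4, h5⟩
    constructor <;> linarith

theorem st_FIB : ST_FIB := by
  intro Y ι _ _ _ _ β q hsep h y
  classical
  obtain ⟨u0, hu0⟩ : ∃ u, q u ≠ 0 := by
    by_contra hc
    push Not at hc
    have := hsep 0 1 (by intro u; rw [map_zero, hc u, zero_mul, add_zero])
    exact one_ne_zero this.2
  by_cases hbad : ∀ u, q u = 0 → |β u y| ≤ h u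
  · have hne : (Finset.univ.filter (fun u => q u ≠ 0)).Nonempty :=
      ⟨u0, Finset.mem_filter.2 ⟨Finset.mem_univ _, hu0⟩⟩
    refine ⟨(Finset.univ.filter (fun u => q u ≠ 0)).sup' hne
        (fun u => -(β u y) / q u - h u / |q u|),
      (Finset.univ.filter (fun u => q u ≠ 0)).inf' hne
        (fun u => -(β u y) / q u + h u / |q u|), fun t _ => ?_⟩
    ext z
    rw [Set.mem_Icc]
    refine Iff.trans ?_ (and_congr le_sub_iff_add_le le_sub_iff_add_le.symm)
    rw [Finset.sup'_le_iff, Finset.le_inf'_iff]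
    show (∀ u, |β u y + q u * z| ≤ h u - t * |q u|) ↔ _
    constructor
    · intro h1
      exact ⟨fun u hu => ((fib_key (Finset.mem_filter.1 hu).2).1 (h1 u)).1,
        fun u hu => ((fib_key (Finset.mem_filter.1 hu).2).1 (h1 u)).2⟩
    · rintro ⟨h1, h2⟩ u
      by_cases hu : q u = 0
      · rw [hu, zero_mul, abs_zero, mul_zero, add_zero, sub_zero]
        exact hbad u hu
      · have hu' : u ∈ Finset.univ.filter (fun u => q u ≠ 0) :=
          Finset.mem_filter.2 ⟨Finset.mem_univ _, hu⟩
        exact (fib_key hu).2 ⟨h1 u hu', h2 u hu'⟩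
  · push Not at hbad
    obtain ⟨u, hu, hlt⟩ := hbad
    refine ⟨1, 0, fun t ht => ?_⟩
    rw [Set.Icc_eq_empty (by linarith)]
    ext z
    simp only [Set.mem_empty_iff_false, iff_false]
    intro hz
    have h1 : |β u y + q u * z| ≤ h u - t * |q u| := hz u
    rw [hu, zero_mul, abs_zero, mul_zero, add_zero, sub_zero] at h1
    linarith

end Pool.Agent.Helper18.LB3
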