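import Pool.Agent.Helper96.LB3.Stmts

/-!
# Row VO3 of the project LB3: the chord bound
-/

namespace Pool.Agent.Helper18.LB3

set_option linter.unusedSectionVars false

open MeasureTheory Module Pool.Agent.Helper96.LB3
open scoped ENNReal

section

variable {Y ι : Type} [NormedAddCommGroup Y] [NormedSpace ℝ Y] [FiniteDimensional ℝ Y]
    [MeasurableSpace Y] [BorelSpace Y] (ν : Measure Y) [ν.IsAddHaarMeasure] [Fintype ι]
    (β : ι → Y →ₗ[ℝ] ℝ) (q : ι → ℝ)

lemma ks_fn (h : ι → ℝ) : KS (fn β q) h = KB β q h := rfl

lemma sep_fn (hs : SepB β q) : Sep (fn β q) := by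
  intro x hx
  have := hs x.1 x.2 hx
  exact Prod.ext this.1 this.2

lemma kb_compact (hP : ST_POS) (hs : SepB β q) (h : ι → ℝ) (hh : ∀ u, 0 < h u) :
    IsCompact (KB β q h) := by
  haveI : ProperSpace Y := FiniteDimensional.proper ℝ Y
  letI : MeasurableSpace (Y × ℝ) := borel _
  haveI : BorelSpace (Y × ℝ) := ⟨rfl⟩
  exact (hP (Y × ℝ) ι (Measure.addHaar) (fn β q) h (sep_fn β q hs) hh).1

lemma pb_image (h : ι → ℝ) : PB β q h = Prod.fst '' KB β q h := by
  ext y
  constructor
  · rintro ⟨z, hz⟩
    exact ⟨(y, z), hz, rfl⟩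
  · rintro ⟨⟨y', z⟩, hz, rfl⟩
    exact ⟨z, hz⟩

lemma pb_compact (hP : ST_POS) (hs : SepB β q) (h : ι → ℝ) (hh : ∀ u, 0 < h u) :
    IsCompact (PB β q h) := by
  rw [pb_image]
  exact (kb_compact β q hP hs h hh).image continuous_fst

end

theorem st_VO3 : ST_POS → ST_VO3 := by
  intro hP Y ι _ _ _ _ _ ν _ _ β q hs h hh u
  haveI : ProperSpace Y := FiniteDimensional.proper ℝ Y
  haveI : SecondCountableTopology Y := secondCountable_of_proper
  have hAB : 0 ≤ AB ν β q h := ENNReal.toReal_nonneg
  by_cases hq : q u = 0
  · rw [hq, abs_zero, mul_zero]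
    exact mul_nonneg (mul_nonneg zero_le_two (hh u).le) hAB
  have hq' : 0 < |q u| := abs_pos.2 hq
  have hK := kb_compact β q hP hs h hh
  have hPc := pb_compact β q hP hs h hh
  have hKm : MeasurableSet (KB β q h) := hK.isClosed.measurableSet
  have hPm : MeasurableSet (PB β q h) := hPc.isClosed.measurableSet
  have hfin : ν (PB β q h) < ∞ := hPc.measure_lt_top
  have h1 : (ν.prod (volume : Measure ℝ)) (KB β q h) ≤
      ENNReal.ofReal (2 * h u / |q u|) * ν (PB β q h) := by
    rw [Measure.prod_apply hKm]
    calc ∫⁻ y, volume (Prod.mk y ⁻¹' KB β q h) ∂ν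
        ≤ ∫⁻ y, (PB β q h).indicator (fun _ => ENNReal.ofReal (2 * h u / |q u|)) y ∂ν := by
          refine lintegral_mono fun y => ?_
          by_cases hy : y ∈ PB β q h
          · rw [Set.indicator_of_mem hy]
            have hsub : Prod.mk y ⁻¹' KB β q h ⊆
                Set.Icc (-(β u y) / q u - h u / |q u|) (-(β u y) / q u + h u / |q u|) := by
              intro z hz
              have h2 : |β u y + q u * z| ≤ h u := hz u
              have h3 : |β u y + q u * z| = |q u| * |z - -(β u y) / q u| := by
                rw [← abs_mul]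
                congr 1
                field_simp
                ring
              rw [h3, mul_comm, ← le_div_iff₀ hq', abs_le] at h2
              constructor <;> linarith [h2.1, h2.2]
            calc volume (Prod.mk y ⁻¹' KB β q h)
                ≤ volume (Set.Icc (-(β u y) / q u - h u / |q u|)
                    (-(β u y) / q u + h u / |q u|)) := measure_mono hsub
              _ = ENNReal.ofReal (2 * h u / |q u|) := by
                rw [Real.volume_Icc]
                congr 1
                ring
          · rw [Set.indicator_of_notMem hy]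
            have : Prod.mk y ⁻¹' KB β q h = ∅ := by
              ext z
              simp only [Set.mem_preimage, Set.mem_empty_iff_false, iff_false]
              intro hz
              exact hy ⟨z, hz⟩
            rw [this, measure_empty]
      _ = ENNReal.ofReal (2 * h u / |q u|) * ν (PB β q h) := by
        rw [lintegral_indicator_const hPm]
  have h2 : VB ν β q h ≤ 2 * h u / |q u| * AB ν β q h := by
    have h3 : 0 ≤ 2 * h u / |q u| := div_nonneg (mul_nonneg zero_le_two (hh u).le) hq'.le
    unfold VB AB Measure.real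
    rw [← ENNReal.toReal_ofReal h3, ← ENNReal.toReal_mul]
    exact ENNReal.toReal_mono (ENNReal.mul_ne_top ENNReal.ofReal_ne_top hfin.ne) h1
  calc VB ν β q h * |q u| ≤ 2 * h u / |q u| * AB ν β q h * |q u| :=
        mul_le_mul_of_nonneg_right h2 hq'.le
    _ = 2 * h u * AB ν β q h := by
      field_simp

end Pool.Agent.Helper18.LB3
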